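import Mathlib

/-!
# The stick principle and weakly universal functions on the pairs of countable ordinals

If the stick principle holds and the continuum is larger than `ω₁`, then there is no
`(1, ω)`-weakly universal function `U : [ω₁]² → ω`. Moreover no family of fewer than `𝔠` functions
is `(1, ω)`-weakly universal.

Proof. By the stick principle there are `ω₁` many countably infinite partial functions such that the
graph of each injective `h : ω₁ → ω₁` includes one of them. For each of them, with domain `A s`,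
choose an ordinal `bet s` above `A s` and a bijection `k s` from `A s` to a countable set `K`, such
that `bet` is injective, and let `F_r {α, bet s} = f_r (k s α)` for `α ∈ A s`. Here `f_r`, for
`r : ω → 2`, are independent functions on `K`. If all `F_r` were captured by fewer than `𝔠` many
functions `U`, then there would be different `r`, `r'` with the same `U`, the same `s` and the same
`h (bet s)`. Then `f_r' ∘ k s` would have only finitely many values on the set of `α ∈ A s` with
`f_r (k s α) = 0`.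
-/

set_option autoImplicit false

open Cardinal Set

namespace Pool.Agent.Results.MP_395df9_lc.StickNoWeaklyUniversal

/-- the set `ω₁` of the countable ordinals (a well-ordered set of order type `ω₁`) -/
abbrev Om1 : Type := (ℵ₁ : Cardinal.{0}).ord.ToType

/-- The stick principle: there is a family of `ω₁` many countably infinite subsets of `ω₁` such that
every uncountable subset of `ω₁` includes a member of the family. -/
def Stick : Prop :=
  ∃ S : Set (Set Om1), #S = ℵ₁ ∧ (∀ s ∈ S, s.Countable ∧ s.Infinite) ∧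
    ∀ X : Set Om1, ¬ X.Countable → ∃ s ∈ S, s ⊆ X

/-- `F : [ω₁]² → ω` is obtained from `U : [ω₁]² → ω` by means of an injective function
`h : ω₁ → ω₁` and a function `e : ω → ω` all of whose fibres have less than `κ` elements. (The
values of `F` and `U` on the diagonal of `Sym2 Om1` do not matter.) -/
def Captures (κ : Cardinal.{0}) (U F : Sym2 Om1 → ℕ) : Prop :=
  ∃ (h : Om1 → Om1) (e : ℕ → ℕ), Function.Injective h ∧ (∀ n, #(e ⁻¹' {n}) < κ) ∧
    ∀ α β : Om1, α ≠ β → F s(α, β) = e (U s(h α, h β))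

/-- `U` is `(1, κ)`-weakly universal. -/
def WeaklyUniversal (κ : Cardinal.{0}) (U : Sym2 Om1 → ℕ) : Prop :=
  ∀ F : Sym2 Om1 → ℕ, Captures κ U F

/-! ### The independent functions -/

/-- the countable domain of the independent functions -/
abbrev K : Type := Σ m : ℕ, ((Fin m → Bool) → ℕ)

/-- independent functions -/
def fr (r : ℕ → Bool) (x : K) : ℕ := x.2 fun i => r i

lemma fr_indep {r r' : ℕ → Bool} (h : r ≠ r') (v : ℕ) : ∃ x : K, fr r x = 0 ∧ fr r' x = v := by
  classical
  obtain ⟨n, hn⟩ := Function.ne_iff.1 h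
  have hne : (fun i : Fin (n + 1) => r i) ≠ fun i : Fin (n + 1) => r' i := by
    intro he
    exact hn (congrFun he ⟨n, Nat.lt_succ_self n⟩)
  refine ⟨⟨n + 1, fun g => if g = fun i : Fin (n + 1) => r' i then v else 0⟩, ?_, ?_⟩
  · show (if (fun i : Fin (n + 1) => r i) = fun i : Fin (n + 1) => r' i then v else 0) = 0
    rw [if_neg hne]
  · show (if (fun i : Fin (n + 1) => r' i) = fun i : Fin (n + 1) => r' i then v else 0) = v
    rw [if_pos rfl]

instance : Countable K := inferInstance

instance : Infinite K :=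
  Infinite.of_injective (fun n : ℕ => (⟨0, fun _ => n⟩ : K)) fun a b h => by
    have h1 := congrArg (fun x : K => x.2 fun _ => true) h
    exact h1

/-! ### Countable ordinals -/

lemma mk_Om1 : #Om1 = ℵ₁ := by rw [mk_toType, card_ord]

lemma countable_Iio (a : Om1) : (Iio a).Countable := by
  rw [← le_aleph0_iff_set_countable, ← lt_aleph_one_iff]
  have h1 := Cardinal.mk_Iio_lt a (by rw [mk_Om1]; exact (Ordinal.type_toType _).symm)
  rwa [mk_Om1] at h1

lemma countable_Iic (a : Om1) : (Iic a).Countable := by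
  have : Iic a = insert a (Iio a) := by
    ext x
    simp [le_iff_lt_or_eq, or_comm]
  rw [this]
  exact (countable_Iio a).insert a

lemma not_countable_univ : ¬ (univ : Set Om1).Countable := by
  intro h
  have h1 := le_aleph0_iff_set_countable.2 h
  rw [mk_univ, mk_Om1] at h1
  exact absurd h1 (not_le.2 aleph0_lt_aleph_one)

/-- a countable set of countable ordinals is bounded, and above it there is a member of each
uncountable set -/
lemma exists_above {A P : Set Om1} (hA : A.Countable) (hP : ¬ P.Countable) :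
    ∃ b ∈ P, ∀ a ∈ A, a < b := by
  by_contra hcon
  push Not at hcon
  refine hP ((hA.biUnion fun a _ => countable_Iic a).mono ?_)
  intro b hb
  obtain ⟨a, ha, hab⟩ := hcon b hb
  exact mem_iUnion₂.2 ⟨a, ha, hab⟩

/-! ### The main argument -/

theorem main {S : Set (Set Om1)} (hS : #S = ℵ₁) (hSi : ∀ s ∈ S, s.Countable ∧ s.Infinite)
    (hSX : ∀ X : Set Om1, ¬ X.Countable → ∃ s ∈ S, s ⊆ X)
    (𝒰 : Set (Sym2 Om1 → ℕ)) (h𝒰 : #𝒰 < 𝔠) (hc : (ℵ₁ : Cardinal.{0}) < 𝔠) :
    ∃ F : Sym2 Om1 → ℕ, ∀ U ∈ 𝒰, ¬ Captures ℵ₀ U F := by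
  classical
  have hmul : #(Om1 × Om1) = #Om1 := by
    rw [mk_prod]
    simp only [lift_id, mk_Om1]
    exact mul_eq_self aleph0_lt_aleph_one.le
  obtain ⟨ε⟩ := Cardinal.eq.1 hmul
  have hSO : #S ≤ #Om1 := by rw [hS, mk_Om1]
  obtain ⟨⟨idx, hidx⟩⟩ := Cardinal.le_def _ _ |>.1 hSO
  -- the projections of the members of the stick family
  let A : S → Set Om1 := fun s => {α | ∃ b, ε (α, b) ∈ s.1}
  have hAc : ∀ s, (A s).Countable := by
    intro s
    have h1 : (A s) ⊆ (fun x => (ε.symm x).1) '' s.1 := by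
      rintro α ⟨b, hb⟩
      exact ⟨_, hb, by simp⟩
    exact ((hSi s.1 s.2).1.image _).mono h1
  -- the choice of the ordinals `bet s`
  have hbex : ∀ s : S, ∃ b : Om1, (ε.symm b).1 = idx s ∧ ∀ a ∈ A s, a < b := by
    intro s
    have hP : ¬ {b : Om1 | (ε.symm b).1 = idx s}.Countable := by
      intro hcnt
      refine not_countable_univ ((hcnt.preimage_of_injOn (f := fun x => ε (idx s, x)) ?_).mono ?_)
      · intro x _ y _ hxy
        have := ε.injective hxy
        exact (Prod.mk.inj this).2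
      · intro x _
        simp
    obtain ⟨b, hb1, hb2⟩ := exists_above (hAc s) hP
    exact ⟨b, hb1, hb2⟩
  choose bet hbet1 hbet2 using hbex
  have hbinj : Function.Injective bet := by
    intro s s' h
    apply hidx
    rw [← hbet1 s, ← hbet1 s', h]
  -- the bijections
  have hkex : ∀ s : S, (A s).Infinite → ∃ k : Om1 → K, ∀ x : K, ∃ α ∈ A s, k α = x := by
    intro s hinf
    have h1 : Countable (A s) := (hAc s).to_subtype
    have h2 : Infinite (A s) := hinf.to_subtype
    obtain ⟨φ⟩ : Nonempty (A s ≃ K) := by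
      have h3 : #(A s) = #K := by rw [mk_eq_aleph0, mk_eq_aleph0]
      exact Cardinal.eq.1 h3
    refine ⟨fun α => if h : α ∈ A s then φ ⟨α, h⟩ else ⟨0, fun _ => 0⟩, fun x => ?_⟩
    refine ⟨(φ.symm x).1, (φ.symm x).2, ?_⟩
    have h4 : (if h : (φ.symm x).1 ∈ A s then φ ⟨(φ.symm x).1, h⟩ else (⟨0, fun _ => 0⟩ : K)) = x := by
      rw [dif_pos (φ.symm x).2]
      exact φ.apply_symm_apply x
    exact h4
  let k : S → Om1 → K := fun s => if h : (A s).Infinite then (hkex s h).choose else
    fun _ => ⟨0, fun _ => 0⟩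
  have hk : ∀ s, (A s).Infinite → ∀ x : K, ∃ α ∈ A s, k s α = x := by
    intro s h
    have h1 : k s = (hkex s h).choose := dif_pos h
    rw [h1]
    exact (hkex s h).choose_spec
  -- the functions
  let G : (ℕ → Bool) → Om1 → Om1 → ℕ := fun r α β =>
    if h : ∃ s, bet s = β then fr r (k h.choose α) else 0
  have hG : ∀ r s α, G r α (bet s) = fr r (k s α) := by
    intro r s α
    have h : ∃ s', bet s' = bet s := ⟨s, rfl⟩
    show (if h : ∃ s', bet s' = bet s then fr r (k h.choose α) else 0) = _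
    rw [dif_pos h, hbinj h.choose_spec]
  let F : (ℕ → Bool) → Sym2 Om1 → ℕ := fun r =>
    Sym2.lift ⟨fun a b => G r (min a b) (max a b), fun a b => by
      show G r (min a b) (max a b) = G r (min b a) (max b a)
      rw [min_comm a b, max_comm a b]⟩
  have hF : ∀ r s α, α ∈ A s → F r s(α, bet s) = fr r (k s α) := by
    intro r s α hα
    have h1 := hbet2 s α hα
    show G r (min α (bet s)) (max α (bet s)) = _
    rw [min_eq_left h1.le, max_eq_right h1.le, hG]
  by_contra hcon
  push Not at hcon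
  have hex : ∀ r, ∃ (U : 𝒰) (s : S) (h : Om1 → Om1) (e : ℕ → ℕ), Function.Injective h ∧
      (∀ n, (e ⁻¹' {n}).Finite) ∧ (∀ α β : Om1, α ≠ β → F r s(α, β) = e (U.1 s(h α, h β))) ∧
      ∀ x ∈ s.1, (ε.symm x).2 = h (ε.symm x).1 := by
    intro r
    obtain ⟨U, hU, h, e, hh, he, hFU⟩ := hcon (F r)
    have hX : ¬ (range fun α => ε (α, h α)).Countable := by
      intro hcnt
      refine not_countable_univ ((hcnt.preimage_of_injOn (f := fun α => ε (α, h α)) ?_).mono ?_)
      · intro x _ y _ hxy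
        exact (Prod.mk.inj (ε.injective hxy)).1
      · intro x _
        exact mem_range_self x
    obtain ⟨s, hs, hsX⟩ := hSX _ hX
    refine ⟨⟨U, hU⟩, ⟨s, hs⟩, h, e, hh, fun n => Cardinal.lt_aleph0_iff_set_finite.1 (he n), hFU, ?_⟩
    intro x hx
    obtain ⟨α, rfl⟩ := hsX hx
    simp
  choose U s h e hh he hFU hs using hex
  -- pigeonhole
  have hcard : #(𝒰 × S × Om1) < #(ℕ → Bool) := by
    have h1 : #(ℕ → Bool) = 𝔠 := by simp
    rw [h1, mk_prod, mk_prod]
    simp only [lift_id, hS, mk_Om1]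
    rw [mul_eq_self aleph0_lt_aleph_one.le]
    exact mul_lt_of_lt aleph0_lt_continuum.le h𝒰 hc
  obtain ⟨r, r', hrr, hne⟩ : ∃ r r', (fun r => (U r, s r, h r (bet (s r)))) r =
      (fun r => (U r, s r, h r (bet (s r)))) r' ∧ r ≠ r' := by
    by_contra hcon2
    push Not at hcon2
    have hinj : Function.Injective fun r => (U r, s r, h r (bet (s r))) := fun r r' => hcon2 r r'
    exact absurd (mk_le_of_injective hinj) (not_le.2 hcard)
  have hUU : U r = U r' := (Prod.mk.inj hrr).1
  have hss : s r = s r' := (Prod.mk.inj (Prod.mk.inj hrr).2).1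
  have hγ : h r (bet (s r)) = h r' (bet (s r')) := (Prod.mk.inj (Prod.mk.inj hrr).2).2
  have hhA : ∀ α ∈ A (s r), h r α = h r' α := by
    rintro α ⟨b, hb⟩
    have h1 := hs r _ hb
    have h2 := hs r' _ (hss ▸ hb)
    simp only [Equiv.symm_apply_apply] at h1 h2
    rw [← h1, ← h2]
  have hAinf : (A (s r)).Infinite := by
    intro hfin
    refine (hSi (s r).1 (s r).2).2 ((hfin.image fun α => ε (α, h r α)).subset ?_)
    intro x hx
    refine ⟨(ε.symm x).1, ⟨(ε.symm x).2, by simpa using hx⟩, ?_⟩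
    show ε ((ε.symm x).1, h r (ε.symm x).1) = x
    rw [← hs r x hx]
    simp
  -- the contradiction
  refine Set.infinite_univ (α := ℕ) (((he r 0).image (e r')).subset ?_)
  intro v _
  obtain ⟨x, hx1, hx2⟩ := fr_indep hne v
  obtain ⟨α, hα, rfl⟩ := hk (s r) hAinf x
  have hne1 : α ≠ bet (s r) := (hbet2 (s r) α hα).ne
  have h1 := hFU r α (bet (s r)) hne1
  have h2 := hFU r' α (bet (s r)) hne1
  rw [hF r (s r) α hα, hx1] at h1
  have h3 : F r' s(α, bet (s r)) = v := by
    rw [hF r' (s r) α hα, hx2]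
  rw [h3, ← hUU, ← hhA α hα, hss, ← hγ] at h2
  exact ⟨(U r).1 s(h r α, h r (bet (s r))), h1.symm, h2.symm⟩

/-- Assume the stick principle and `𝔠 > ω₁`. Then there is no `(1, ω)`-weakly universal function
`U : [ω₁]² → ω`; moreover, for each family `𝒰` of fewer than `𝔠` functions `[ω₁]² → ω` there is a
function `F : [ω₁]² → ω` which is not of the form `e ∘ U ∘ h` with `U ∈ 𝒰`, an injective
`h : ω₁ → ω₁` and a finite-to-one `e : ω → ω`. -/
theorem result (hS : Stick) (hc : (ℵ₁ : Cardinal.{0}) < 𝔠) :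
    (¬ ∃ U : Sym2 Om1 → ℕ, WeaklyUniversal ℵ₀ U) ∧
    ∀ 𝒰 : Set (Sym2 Om1 → ℕ), #𝒰 < 𝔠 → ∃ F : Sym2 Om1 → ℕ, ∀ U ∈ 𝒰, ¬ Captures ℵ₀ U F := by
  obtain ⟨S, h1, h2, h3⟩ := hS
  have key : ∀ 𝒰 : Set (Sym2 Om1 → ℕ), #𝒰 < 𝔠 →
      ∃ F : Sym2 Om1 → ℕ, ∀ U ∈ 𝒰, ¬ Captures ℵ₀ U F := fun 𝒰 h𝒰 => main h1 h2 h3 𝒰 h𝒰 hc
  refine ⟨?_, key⟩
  rintro ⟨U, hU⟩
  obtain ⟨F, hF⟩ := key {U} (by
    rw [mk_singleton]
    exact one_lt_aleph0.trans aleph0_lt_continuum)
  exact hF U rfl (hU F)

end Pool.Agent.Results.MP_395df9_lc.StickNoWeaklyUniversal
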